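import Pool.Agent.Helper53.PT.GoalsA

/-!
# Packet PT-LP: the law of the sum
-/

open MeasureTheory Set

namespace Pool.Agent.Helper59.PT

open Pool.Agent.Helper53.PT

/-- `h` is the cosine transform of `ρ`, `v` the second moment, subgaussian bound -/
structure Law (h : ℝ → ℝ) (v : ℝ) (ρ : Measure ℝ) : Prop where
  prob : IsProbabilityMeasure ρ
  eq : ∀ ξ, h ξ = ∫ x, Real.cos (ξ * x) ∂ρ
  int2 : Integrable (fun x : ℝ => x ^ 2) ρ
  var : ∫ x, x ^ 2 ∂ρ = v
  cosh : ∀ l : ℝ, Integrable (fun x => Real.cosh (l * x)) ρ ∧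
    ∫ x, Real.cosh (l * x) ∂ρ ≤ Real.exp (l ^ 2 * v / 2)

theorem Law.one : Law (fun _ => 1) 0 (Measure.dirac 0) where
  prob := inferInstance
  eq := fun ξ => by rw [integral_dirac]; simp
  int2 := integrable_dirac (by simp)
  var := by rw [integral_dirac]; simp
  cosh := fun l => ⟨integrable_dirac (by simp), by rw [integral_dirac]; simp⟩

theorem Law.mul {h₁ h₂ : ℝ → ℝ} {v₁ v₂ : ℝ} {ν₁ ν₂ : Measure ℝ} (H₁ : Law h₁ v₁ ν₁)
    (H₂ : Law h₂ v₂ ν₂) : ∃ ν, Law (fun t => h₁ t * h₂ t) (v₁ + v₂) ν := by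
  have := H₁.prob
  have := H₂.prob
  set A := (ν₁.prod ν₂).map (fun p : ℝ × ℝ => p.1 + p.2) with hA
  set B := (ν₁.prod ν₂).map (fun p : ℝ × ℝ => p.1 - p.2) with hB
  have : IsProbabilityMeasure A := Measure.isProbabilityMeasure_map (by fun_prop)
  have : IsProbabilityMeasure B := Measure.isProbabilityMeasure_map (by fun_prop)
  have key : ∀ h : ℝ → ℝ, Continuous h →
      Integrable (fun p : ℝ × ℝ => h (p.1 + p.2)) (ν₁.prod ν₂) →
      Integrable (fun p : ℝ × ℝ => h (p.1 - p.2)) (ν₁.prod ν₂) →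
      Integrable h ((2⁻¹ : ENNReal) • A + (2⁻¹ : ENNReal) • B) ∧
      ∫ x, h x ∂((2⁻¹ : ENNReal) • A + (2⁻¹ : ENNReal) • B) =
        ∫ p : ℝ × ℝ, 2⁻¹ * (h (p.1 + p.2) + h (p.1 - p.2)) ∂(ν₁.prod ν₂) := by
    intro h hh i1 i2
    have iA : Integrable h A := by
      rw [hA, integrable_map_measure hh.aestronglyMeasurable (by fun_prop)]
      exact i1
    have iB : Integrable h B := by
      rw [hB, integrable_map_measure hh.aestronglyMeasurable (by fun_prop)]
      exact i2
    refine ⟨(iA.smul_measure (by simp)).add_measure (iB.smul_measure (by simp)), ?_⟩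
    rw [integral_add_measure (iA.smul_measure (by simp)) (iB.smul_measure (by simp)),
      integral_smul_measure, integral_smul_measure, hA, hB,
      integral_map (by fun_prop) hh.aestronglyMeasurable,
      integral_map (by fun_prop) hh.aestronglyMeasurable, integral_const_mul,
      integral_add i1 i2]
    simp only [ENNReal.toReal_inv, ENNReal.toReal_ofNat, smul_eq_mul]
    ring
  refine ⟨(2⁻¹ : ENNReal) • A + (2⁻¹ : ENNReal) • B, ⟨⟨?_⟩, ?_, ?_, ?_, ?_⟩⟩
  · simp only [Measure.add_apply, Measure.smul_apply, measure_univ, smul_eq_mul, mul_one]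
    exact ENNReal.inv_two_add_inv_two
  · intro t
    have bd2 : ∀ (f : ℝ × ℝ → ℝ), Measurable f →
        Integrable (fun x => Real.cos (f x)) (ν₁.prod ν₂) := by
      intro f hf
      refine Integrable.mono' (integrable_const (1 : ℝ))
        (Real.measurable_cos.comp hf).aestronglyMeasurable ?_
      exact Filter.Eventually.of_forall fun x => by
        rw [Real.norm_eq_abs]; exact Real.abs_cos_le_one _
    rw [(key (fun x => Real.cos (t * x)) (by fun_prop) (bd2 _ (by fun_prop))
      (bd2 _ (by fun_prop))).2, H₁.eq t, H₂.eq t, ← integral_prod_mul]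
    refine integral_congr_ae (Filter.Eventually.of_forall fun p => ?_)
    simp only
    rw [mul_add t, mul_sub t, Real.cos_add, Real.cos_sub]
    ring
  · have i1 : Integrable (fun p : ℝ × ℝ => p.1 ^ 2) (ν₁.prod ν₂) := H₁.int2.comp_fst ν₂
    have i2 : Integrable (fun p : ℝ × ℝ => p.2 ^ 2) (ν₁.prod ν₂) := H₂.int2.comp_snd ν₁
    have i3 := (i1.add i2).const_mul 2
    refine (key (fun x => x ^ 2) (by fun_prop) (i3.mono' (by fun_prop) ?_)
      (i3.mono' (by fun_prop) ?_)).1
    · refine Filter.Eventually.of_forall fun p => ?_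
      simp only [Pi.add_apply]
      rw [Real.norm_of_nonneg (sq_nonneg _)]
      nlinarith [sq_nonneg (p.1 - p.2)]
    · refine Filter.Eventually.of_forall fun p => ?_
      simp only [Pi.add_apply]
      rw [Real.norm_of_nonneg (sq_nonneg _)]
      nlinarith [sq_nonneg (p.1 + p.2)]
  · have i1 : Integrable (fun p : ℝ × ℝ => p.1 ^ 2) (ν₁.prod ν₂) := H₁.int2.comp_fst ν₂
    have i2 : Integrable (fun p : ℝ × ℝ => p.2 ^ 2) (ν₁.prod ν₂) := H₂.int2.comp_snd ν₁
    have i3 := (i1.add i2).const_mul 2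
    rw [(key (fun x => x ^ 2) (by fun_prop) (i3.mono' (by fun_prop) ?_)
      (i3.mono' (by fun_prop) ?_)).2]
    · have e1 : ∫ p : ℝ × ℝ, 2⁻¹ * ((p.1 + p.2) ^ 2 + (p.1 - p.2) ^ 2) ∂(ν₁.prod ν₂) =
          ∫ p : ℝ × ℝ, (p.1 ^ 2 + p.2 ^ 2) ∂(ν₁.prod ν₂) := by
        refine integral_congr_ae (Filter.Eventually.of_forall fun p => ?_)
        simp only
        ring
      have e2 : ∫ p : ℝ × ℝ, p.1 ^ 2 ∂(ν₁.prod ν₂) = v₁ := by
        have := integral_prod_mul (μ := ν₁) (ν := ν₂) (fun x : ℝ => x ^ 2) (fun _ : ℝ => (1 : ℝ))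
        simpa [H₁.var] using this
      have e3 : ∫ p : ℝ × ℝ, p.2 ^ 2 ∂(ν₁.prod ν₂) = v₂ := by
        have := integral_prod_mul (μ := ν₁) (ν := ν₂) (fun _ : ℝ => (1 : ℝ)) (fun x : ℝ => x ^ 2)
        simpa [H₂.var] using this
      rw [e1, integral_add i1 i2, e2, e3]
    · refine Filter.Eventually.of_forall fun p => ?_
      simp only [Pi.add_apply]
      rw [Real.norm_of_nonneg (sq_nonneg _)]
      nlinarith [sq_nonneg (p.1 - p.2)]
    · refine Filter.Eventually.of_forall fun p => ?_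
      simp only [Pi.add_apply]
      rw [Real.norm_of_nonneg (sq_nonneg _)]
      nlinarith [sq_nonneg (p.1 + p.2)]
  · intro l
    have i1 : Integrable (fun p : ℝ × ℝ => Real.cosh (l * p.1) * Real.cosh (l * p.2))
        (ν₁.prod ν₂) := (H₁.cosh l).1.mul_prod (H₂.cosh l).1
    have i3 := i1.const_mul 2
    have hid : ∀ x y : ℝ, Real.cosh (l * (x + y)) + Real.cosh (l * (x - y)) =
        2 * (Real.cosh (l * x) * Real.cosh (l * y)) := by
      intro x y
      rw [mul_add, mul_sub, Real.cosh_add, Real.cosh_sub]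
      ring
    have j1 : Integrable (fun p : ℝ × ℝ => Real.cosh (l * (p.1 + p.2))) (ν₁.prod ν₂) := by
      refine i3.mono' (by fun_prop) (Filter.Eventually.of_forall fun p => ?_)
      rw [Real.norm_of_nonneg (Real.cosh_pos _).le]
      have h1 := hid p.1 p.2
      have h2 := Real.cosh_pos (l * (p.1 - p.2))
      linarith
    have j2 : Integrable (fun p : ℝ × ℝ => Real.cosh (l * (p.1 - p.2))) (ν₁.prod ν₂) := by
      refine i3.mono' (by fun_prop) (Filter.Eventually.of_forall fun p => ?_)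
      rw [Real.norm_of_nonneg (Real.cosh_pos _).le]
      have h1 := hid p.1 p.2
      have h2 := Real.cosh_pos (l * (p.1 + p.2))
      linarith
    obtain ⟨k1, k2⟩ := key (fun x => Real.cosh (l * x)) (by fun_prop) j1 j2
    refine ⟨k1, ?_⟩
    rw [k2]
    have e1 : ∫ p : ℝ × ℝ, 2⁻¹ * (Real.cosh (l * (p.1 + p.2)) + Real.cosh (l * (p.1 - p.2)))
        ∂(ν₁.prod ν₂) = (∫ x, Real.cosh (l * x) ∂ν₁) * ∫ x, Real.cosh (l * x) ∂ν₂ := by
      rw [← integral_prod_mul]
      refine integral_congr_ae (Filter.Eventually.of_forall fun p => ?_)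
      simp only
      rw [hid]
      ring
    rw [e1, show l ^ 2 * (v₁ + v₂) / 2 = l ^ 2 * v₁ / 2 + l ^ 2 * v₂ / 2 by ring, Real.exp_add]
    exact mul_le_mul (H₁.cosh l).2 (H₂.cosh l).2
      (integral_nonneg fun x => (Real.cosh_pos _).le) (Real.exp_pos _).le

theorem gLP : GLP := by
  intro H hmo θ h0 h1 ι S t
  obtain ⟨prob, -, ipow, mom, hf0, hcosh⟩ := H θ h0 h1
  have base : ∀ s : ℝ, 0 ≤ s → Law (fun ξ => f0 θ (s * ξ ^ 2)) s ((nu θ).map (fun y => √s * y)) := by
    intro s hs
    refine ⟨Measure.isProbabilityMeasure_map (by fun_prop), fun ξ => ?_, ?_, ?_, fun l => ?_⟩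
    · rw [hf0 _ (by positivity), integral_map (by fun_prop) (by fun_prop)]
      refine integral_congr_ae (Filter.Eventually.of_forall fun y => ?_)
      simp only
      rw [Real.sqrt_mul hs, Real.sqrt_sq_eq_abs]
      rcases abs_cases ξ with h | h
      · rw [h.1]; ring_nf
      · rw [h.1, ← Real.cos_neg]; ring_nf
    · rw [integrable_map_measure (by fun_prop) (by fun_prop)]
      have := (ipow 2).const_mul s
      refine this.congr (Filter.Eventually.of_forall fun y => ?_)
      simp only [Function.comp]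
      rw [mul_pow, Real.sq_sqrt hs]
    · rw [integral_map (by fun_prop) (by fun_prop)]
      have e1 : ∀ y : ℝ, (√s * y) ^ 2 = s * y ^ 2 := fun y => by rw [mul_pow, Real.sq_sqrt hs]
      simp only [e1]
      rw [integral_const_mul]
      have e2 := mom 1
      rw [mul_one, hmo θ h0 h1] at e2
      rw [e2, mul_one]
    · obtain ⟨c1, c2⟩ := hcosh (l * √s)
      have e1 : ∀ y : ℝ, l * (√s * y) = l * √s * y := fun y => by ring
      constructor
      · rw [integrable_map_measure (by fun_prop) (by fun_prop)]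
        refine c1.congr (Filter.Eventually.of_forall fun y => ?_)
        simp only [Function.comp]
        rw [e1]
      · rw [integral_map (by fun_prop) (by fun_prop)]
        simp only [e1]
        refine c2.trans (le_of_eq ?_)
        rw [mul_pow, Real.sq_sqrt hs]
  have key : (∀ i ∈ S, 0 ≤ t i) → ∃ ρ : Measure ℝ,
      Law (fun ξ => ∏ i ∈ S, f0 θ (t i * ξ ^ 2)) (∑ i ∈ S, t i) ρ := by
    classical
    induction S using Finset.induction_on with
    | empty =>
      intro _
      simpa using ⟨_, Law.one⟩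
    | insert i S hi ih =>
      intro ht
      obtain ⟨ν, hν⟩ := ih fun j hj => ht j (Finset.mem_insert_of_mem hj)
      simp_rw [Finset.prod_insert hi]
      rw [Finset.sum_insert hi]
      exact (base (t i) (ht i (Finset.mem_insert_self i S))).mul hν
  intro ht
  obtain ⟨ρ, hρ⟩ := key ht
  exact ⟨ρ, hρ.prob, hρ.eq, hρ.int2, hρ.var, hρ.cosh⟩

end Pool.Agent.Helper59.PT
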