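import Pool.Agent.Helper53.PT.GoalsD
import Pool.Agent.Helper53.PT.B

/-!
# MP_705522_gt, packet PSM: the sum `pSum` (near the pair)
-/

namespace Pool.Agent.Helper59.PT

open Set
open Pool.Agent.Helper53.PT

/-! ## the `Nat` functions -/

theorem frc_eq {α : Type} (n : ℕ) (f : ℕ → α) : N.frc n f = f n := by cases n <;> rfl

theorem nsl (a b : ℕ) : Nat.shiftLeft a b = a * 2 ^ b := Nat.shiftLeft_eq a b
theorem nsr (a b : ℕ) : Nat.shiftRight a b = a / 2 ^ b := Nat.shiftRight_eq_div_pow a b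
theorem nmul (a b : ℕ) : Nat.mul a b = a * b := rfl
theorem nadd (a b : ℕ) : Nat.add a b = a + b := rfl
theorem nsub (a b : ℕ) : Nat.sub a b = a - b := rfl
theorem ndiv (a b : ℕ) : Nat.div a b = a / b := rfl

theorem xgN_lt {k : ℕ} (h : k < 1152) : N.xgN k < 2 ^ 32 := by
  unfold N.xgN
  simp only [Bool.cond_eq_ite, Nat.ble_eq, nsl, nadd, nsub]
  split_ifs <;> omega

theorem vR_nonneg (x : ℕ) : 0 ≤ vR x := by unfold vR; positivity
theorem aR_nonneg (x : ℕ) : 0 ≤ aR x := by unfold aR; positivity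

theorem vR_mono {x y : ℕ} (h : x ≤ y) : vR x ≤ vR y := by
  unfold vR
  have : (x : ℝ) ≤ y := by exact_mod_cast h
  gcongr

theorem aR_mono {x y : ℕ} (h : x ≤ y) : aR x ≤ aR y := by
  unfold aR
  have : (x : ℝ) ≤ y := by exact_mod_cast h
  gcongr

theorem aR_mul (x y : ℕ) : aR (x * y) = aR x * y := by
  unfold aR; push_cast; ring

theorem vR_add (x y : ℕ) : vR (x + y) = vR x + vR y := by
  unfold vR; push_cast; ring

theorem vR_sub {x y : ℕ} (h : y ≤ x) : vR (x - y) = vR x - vR y := by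
  unfold vR; rw [Nat.cast_sub h]; ring

theorem vR_one : vR N.one = 1 := by
  unfold vR N.one; norm_num

/-- subtraction: `vR (x - y) ≤ max (vR x - vR y) 0` -/
theorem vR_sub_le (x y : ℕ) : vR (x - y) ≤ max (vR x - vR y) 0 := by
  rcases le_total y x with h | h
  · rw [vR_sub h]; exact le_max_left _ _
  · rw [Nat.sub_eq_zero_of_le h]
    have : vR 0 = 0 := by unfold vR; norm_num
    rw [this]; exact le_max_right _ _

theorem le_vR_sub (x y : ℕ) : vR x - vR y ≤ vR (x - y) := by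
  rcases le_total y x with h | h
  · rw [vR_sub h]
  · have := vR_mono h
    have := vR_nonneg (x - y)
    linarith

/-- product rounded down -/
theorem mulL3 (A B W : ℕ) : vR (A * B / 2 ^ 40 * W / 2 ^ 40) ≤ vR A * vR B * vR W := by
  unfold vR
  have h1 : ((A * B / 2 ^ 40 * W / 2 ^ 40 : ℕ) : ℝ) ≤ ((A * B / 2 ^ 40 * W : ℕ) : ℝ) / 2 ^ 40 := by
    have := @Nat.cast_div_le ℝ _ _ _ (A * B / 2 ^ 40 * W) (2 ^ 40)
    rw [Nat.cast_pow, Nat.cast_ofNat] at this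
    exact this
  have h2 : ((A * B / 2 ^ 40 : ℕ) : ℝ) ≤ ((A * B : ℕ) : ℝ) / 2 ^ 40 := by
    have := @Nat.cast_div_le ℝ _ _ _ (A * B) (2 ^ 40)
    rw [Nat.cast_pow, Nat.cast_ofNat] at this
    exact this
  rw [Nat.cast_mul] at h1 h2
  have h3 : ((A * B / 2 ^ 40 : ℕ) : ℝ) * W ≤ ((A : ℝ) * B / 2 ^ 40) * W :=
    mul_le_mul_of_nonneg_right h2 (Nat.cast_nonneg _)
  calc ((A * B / 2 ^ 40 * W / 2 ^ 40 : ℕ) : ℝ) / 2 ^ 40
      ≤ (((A : ℝ) * B / 2 ^ 40) * W / 2 ^ 40) / 2 ^ 40 := by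
        have := h1.trans (div_le_div_of_nonneg_right h3 (by positivity))
        exact div_le_div_of_nonneg_right this (by positivity)
    _ = (A : ℝ) / 2 ^ 40 * (B / 2 ^ 40) * (W / 2 ^ 40) := by ring

theorem lt_succ_div (a : ℕ) : (a : ℝ) / 2 ^ 40 ≤ ((a / 2 ^ 40 + 1 : ℕ) : ℝ) := by
  rw [div_le_iff₀ (by positivity)]
  have : a ≤ (a / 2 ^ 40 + 1) * 2 ^ 40 := by
    have := Nat.lt_div_mul_add (a := a) (b := 2 ^ 40) (by norm_num)
    nlinarith
  exact_mod_cast this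

/-- product rounded up -/
theorem mulU3 (A B W : ℕ) : vR A * vR B * vR W ≤ vR (((A * B / 2 ^ 40 + 1) * W) / 2 ^ 40 + 1) := by
  unfold vR
  have h1 := lt_succ_div ((A * B / 2 ^ 40 + 1) * W)
  have h2 := lt_succ_div (A * B)
  have h3 : ((A * B : ℕ) : ℝ) / 2 ^ 40 * W ≤ (((A * B / 2 ^ 40 + 1) : ℕ) : ℝ) * W :=
    mul_le_mul_of_nonneg_right h2 (Nat.cast_nonneg _)
  calc (A : ℝ) / 2 ^ 40 * (B / 2 ^ 40) * (W / 2 ^ 40)
      = (((A * B : ℕ) : ℝ) / 2 ^ 40 * W / 2 ^ 40) / 2 ^ 40 := by push_cast; ring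
    _ ≤ (((((A * B / 2 ^ 40 + 1) * W : ℕ) : ℝ)) / 2 ^ 40) / 2 ^ 40 := by
        rw [Nat.cast_mul (A * B / 2 ^ 40 + 1) W]
        exact div_le_div_of_nonneg_right (div_le_div_of_nonneg_right h3 (by positivity)) (by positivity)
    _ ≤ _ := div_le_div_of_nonneg_right h1 (by positivity)

/-- the weight -/
noncomputable def wt (e0 X : ℕ) : ℝ := (1 - Real.exp (-(aR e0 * X) / 2)) / (aR e0 * X)

theorem vR_arg (e0 X : ℕ) : vR (e0 * X * 2 ^ 13) = aR e0 * X / 2 := by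
  unfold vR aR; push_cast; ring

theorem wt_nonneg {e0 X : ℕ} (h : 0 < e0) (hX : 0 < X) : 0 ≤ wt e0 X := by
  unfold wt
  have h1 : 0 < aR e0 * X := by
    unfold aR
    have : (0 : ℝ) < e0 := by exact_mod_cast h
    have : (0 : ℝ) < X := by exact_mod_cast hX
    positivity
  have h2 : Real.exp (-(aR e0 * X) / 2) ≤ 1 := by
    rw [Real.exp_le_one_iff]; linarith
  exact div_nonneg (by linarith) h1.le

theorem wtL (hE : GEXP) {e0 X : ℕ} (h : 0 < e0) (hX : 0 < X) :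
    vR (((N.one - N.expUp (e0 * X * 2 ^ 13)) * 2 ^ 26) / (e0 * X)) ≤ wt e0 X := by
  have he := (hE (e0 * X * 2 ^ 13)).1
  rw [vR_arg] at he
  have hp : (0 : ℝ) < (e0 * X : ℕ) := by exact_mod_cast Nat.mul_pos h hX
  have h1 : (((N.one - N.expUp (e0 * X * 2 ^ 13)) * 2 ^ 26 / (e0 * X) : ℕ) : ℝ) ≤
      (((N.one - N.expUp (e0 * X * 2 ^ 13)) * 2 ^ 26 : ℕ) : ℝ) / ((e0 * X : ℕ) : ℝ) :=
    @Nat.cast_div_le ℝ _ _ _ ((N.one - N.expUp (e0 * X * 2 ^ 13)) * 2 ^ 26) (e0 * X)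
  have h2 := vR_sub_le N.one (N.expUp (e0 * X * 2 ^ 13))
  rw [vR_one] at h2
  have h3 : Real.exp (-(aR e0 * X) / 2) ≤ 1 := by
    rw [Real.exp_le_one_iff]
    have := mul_nonneg (aR_nonneg e0) (Nat.cast_nonneg (α := ℝ) X)
    linarith
  have he' : Real.exp (-(aR e0 * X) / 2) ≤ vR (N.expUp (e0 * X * 2 ^ 13)) := by
    have e : -(aR e0 * X) / 2 = -(aR e0 * X / 2) := by ring
    rw [e]; exact he
  have h4 : vR (N.one - N.expUp (e0 * X * 2 ^ 13)) ≤ 1 - Real.exp (-(aR e0 * X) / 2) :=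
    h2.trans (max_le (by linarith) (by linarith))
  unfold wt
  have e1 : aR e0 * (X : ℝ) = ((e0 * X : ℕ) : ℝ) / 2 ^ 26 := by unfold aR; push_cast; ring
  rw [e1] at h4 ⊢
  rw [div_div_eq_mul_div, le_div_iff₀ hp]
  rw [le_div_iff₀ hp] at h1
  unfold vR at h4 ⊢
  rw [div_le_iff₀ (by positivity)] at h4
  push_cast at h1 h4 ⊢
  calc _ = ((((N.one - N.expUp (e0 * X * 2 ^ 13)) * 2 ^ 26 / (e0 * X) : ℕ) : ℝ) * ((e0 : ℝ) * X)) / 2 ^ 40 := by
        push_cast; ring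
    _ ≤ (((N.one - N.expUp (e0 * X * 2 ^ 13) : ℕ) : ℝ) * 2 ^ 26) / 2 ^ 40 :=
        div_le_div_of_nonneg_right (by exact_mod_cast h1) (by positivity)
    _ ≤ _ := by
        rw [div_le_iff₀ (by positivity)]
        nlinarith [h4]

theorem wtU (hE : GEXP) {e0 X : ℕ} (h : 0 < e0) (hX : 0 < X) :
    wt e0 X ≤ vR (((N.one - N.expLo (e0 * X * 2 ^ 13)) * 2 ^ 26) / (e0 * X) + 1) := by
  have he := (hE (e0 * X * 2 ^ 13)).2
  rw [vR_arg] at he
  have hn : 0 < e0 * X := Nat.mul_pos h hX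
  have hp : (0 : ℝ) < (e0 * X : ℕ) := by exact_mod_cast hn
  have h1 : (((N.one - N.expLo (e0 * X * 2 ^ 13)) * 2 ^ 26 : ℕ) : ℝ) ≤
      (((N.one - N.expLo (e0 * X * 2 ^ 13)) * 2 ^ 26 / (e0 * X) + 1 : ℕ) : ℝ) * ((e0 * X : ℕ) : ℝ) := by
    have := Nat.lt_div_mul_add (a := (N.one - N.expLo (e0 * X * 2 ^ 13)) * 2 ^ 26) (b := e0 * X) hn
    have h2 : (N.one - N.expLo (e0 * X * 2 ^ 13)) * 2 ^ 26 ≤
      ((N.one - N.expLo (e0 * X * 2 ^ 13)) * 2 ^ 26 / (e0 * X) + 1) * (e0 * X) := by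
      rw [add_mul, one_mul]; exact this.le
    exact_mod_cast h2
  have h2 := le_vR_sub N.one (N.expLo (e0 * X * 2 ^ 13))
  rw [vR_one] at h2
  have he' : vR (N.expLo (e0 * X * 2 ^ 13)) ≤ Real.exp (-(aR e0 * X) / 2) := by
    have e : -(aR e0 * X) / 2 = -(aR e0 * X / 2) := by ring
    rw [e]; exact he
  have h4 : 1 - Real.exp (-(aR e0 * X) / 2) ≤ vR (N.one - N.expLo (e0 * X * 2 ^ 13)) :=
    (sub_le_sub_left he' 1).trans h2
  unfold wt
  have e1 : aR e0 * (X : ℝ) = ((e0 * X : ℕ) : ℝ) / 2 ^ 26 := by unfold aR; push_cast; ring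
  rw [e1] at h4 ⊢
  rw [div_div_eq_mul_div, div_le_iff₀ hp]
  unfold vR at h4 ⊢
  rw [le_div_iff₀ (by positivity)] at h4
  rw [Nat.cast_mul] at h1
  calc _ ≤ (((N.one - N.expLo (e0 * X * 2 ^ 13) : ℕ) : ℝ) * ((2 ^ 26 : ℕ) : ℝ)) / 2 ^ 40 := by
        rw [le_div_iff₀ (by positivity)]
        have := mul_le_mul_of_nonneg_right h4 (by positivity : (0 : ℝ) ≤ 2 ^ 26)
        have e3 : ((2 ^ 26 : ℕ) : ℝ) = 2 ^ 26 := by norm_num
        rw [e3]
        calc _ = (1 - Real.exp (-(((e0 * X : ℕ) : ℝ) / 2 ^ 26) / 2)) * 2 ^ 40 * 2 ^ 26 := by ring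
          _ ≤ _ := this
    _ ≤ _ := by
        rw [div_mul_eq_mul_div]
        exact div_le_div_of_nonneg_right h1 (by positivity)

/-! ## bounds of `f0` -/

variable {D : N.Tab} {θ z : ℝ}

theorem tayL_le (hT : TF D θ z) {x : ℕ} (hx : x < 2 ^ 32) :
    vR (N.pp (N.tayL D x)) ≤ max (f0 θ (aR x)) 0 := by
  obtain ⟨v, e, h1, h2⟩ := hT.tay 0 x (Or.inl rfl) (by simpa using hx)
  have h3 : N.tayL D x = v - e := h1 ℕ Nat.sub
  have h4 : (x : ℝ) / 2 ^ (26 + 0) = aR x := by unfold aR; norm_num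
  rw [h4] at h2
  have h5 : N.pp (N.tayL D x) = v - e - N.one := by rw [h3]; rfl
  rw [h5, Nat.sub_sub]
  refine (vR_sub_le _ _).trans (max_le_max ?_ le_rfl)
  rw [vR_add, vR_one]
  have := (abs_le.1 h2).1
  linarith

theorem tayU_le (hT : TF D θ z) {x : ℕ} (hx : x < 2 ^ 32) :
    vR (N.np (N.tayU D x)) ≤ max (-f0 θ (aR x)) 0 := by
  obtain ⟨v, e, h1, h2⟩ := hT.tay 0 x (Or.inl rfl) (by simpa using hx)
  have h3 : N.tayU D x = v + e := h1 ℕ Nat.add
  have h4 : (x : ℝ) / 2 ^ (26 + 0) = aR x := by unfold aR; norm_num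
  rw [h4] at h2
  have h5 : N.np (N.tayU D x) = N.one - (v + e) := by rw [h3]; rfl
  rw [h5]
  refine (vR_sub_le _ _).trans (max_le_max ?_ le_rfl)
  rw [vR_add, vR_one]
  have := (abs_le.1 h2).2
  linarith

theorem aR_zL (D : N.Tab) : aR (N.zL D) = xR D.I.kz := rfl
theorem aR_zR (D : N.Tab) : aR (N.zR D) = xR D.I.kR := rfl

/-- before `z` -/
theorem low1 (hT : TF D θ z) {x : ℕ} {y : ℝ} (hx : x ≤ N.zL D) (hy0 : 0 ≤ y) (hy : y ≤ aR x) :
    0 ≤ f0 θ y ∧ vR (N.pp (N.tayL D x)) ≤ f0 θ y := by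
  have hRL := bRL θ z _ _ _ _ hT.fa
  have hxz : aR x < z := (aR_mono hx).trans_lt hT.zl
  have hpos := hRL.2.1 y hy0 (hy.trans_lt hxz)
  refine ⟨hpos.le, ?_⟩
  have hx32 : x < 2 ^ 32 := by
    have h1 : N.zL D < 2 ^ 32 := xgN_lt (by have := hT.i1; omega)
    omega
  refine (tayL_le hT hx32).trans (max_le ?_ hpos.le)
  have hzm := hT.fa.zm
  exact hRL.1.antitoneOn ⟨hy0, by linarith⟩ ⟨aR_nonneg x, by linarith⟩ hy

/-- beyond `z` -/
theorem low2 (hT : TF D θ z) {x0 x1 : ℕ} {y : ℝ} (hx : N.zR D ≤ x0)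
    (hn : D.B.ni = true ∨ x1 ≤ N.xgN D.I.kN) (hy0 : aR x0 ≤ y) (hy : y ≤ aR x1) :
    0 ≤ -f0 θ y ∧ vR (N.mnA D x0 x1) ≤ -f0 θ y := by
  have hRL := bRL θ z _ _ _ _ hT.fa
  have hzy : z < aR x0 := hT.zr.trans_le (aR_mono hx)
  have hneg : f0 θ y ≤ 0 := by
    rcases le_total y (xR D.I.kM) with h | h
    · exact (hRL.2.2.1 y (by linarith) (h.trans hT.fa.mN)).le
    · rcases hn with hn | hn
      · exact (hT.ni hn y h).le
      · exact (hRL.2.2.1 y (by linarith) (hy.trans (aR_mono hn))).le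
  refine ⟨by linarith, ?_⟩
  unfold N.mnA
  by_cases h1 : x1 ≤ N.xgN D.I.kW
  · rw [show Nat.ble x1 (N.xgN D.I.kW) = true from Nat.ble_eq_true_of_le h1, cond_true]
    have hW : N.xgN D.I.kW < 2 ^ 32 := xgN_lt (by have := hT.i2; omega)
    have hx1 : x0 ≤ x1 := by
      have h : aR x0 ≤ aR x1 := hy0.trans hy
      unfold aR at h
      have h' : (x0 : ℝ) ≤ x1 := by
        have := (div_le_div_iff_of_pos_right (by positivity : (0:ℝ) < 2 ^ 26)).1 h
        exact this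
      exact_mod_cast h'
    have hc := hRL.2.2.2.2.2.2.2.2.1
    have hWN := hT.fa.WN
    have hxW : aR x1 ≤ xR D.I.kW := aR_mono h1
    have ha : 0 < -f0 θ (aR x0) := by
      have := hRL.2.2.1 (aR x0) hzy (by linarith)
      linarith
    have hb : 0 < -f0 θ (aR x1) := by
      have := hRL.2.2.1 (aR x1) (by linarith) (by linarith)
      linarith
    have hyn : 0 < -f0 θ y := by
      have := hRL.2.2.1 y (by linarith) (by linarith)
      linarith
    have hm := hc.min_le_of_mem_Icc (x := aR x0) (y := aR x1) (z := y)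
      ⟨hzy, by linarith⟩ ⟨by linarith, hxW⟩ ⟨hy0, hy⟩
    have hm' : min (-f0 θ (aR x0)) (-f0 θ (aR x1)) ≤ -f0 θ y := by
      rcases min_le_iff.1 hm with hm | hm
      · exact min_le_iff.2 (Or.inl ((Real.log_le_log_iff ha hyn).1 hm))
      · exact min_le_iff.2 (Or.inr ((Real.log_le_log_iff hb hyn).1 hm))
    have hA := tayU_le hT (x := x0) (by omega)
    have hB := tayU_le hT (x := x1) (by omega)
    rw [max_eq_left ha.le] at hA
    rw [max_eq_left hb.le] at hB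
    rcases min_le_iff.1 hm' with hm | hm
    · refine le_trans (vR_mono ?_) (hA.trans hm)
      unfold N.mn
      rw [Bool.cond_eq_ite]
      simp only [Nat.ble_eq]
      split_ifs <;> omega
    · refine le_trans (vR_mono ?_) (hB.trans hm)
      unfold N.mn
      rw [Bool.cond_eq_ite]
      simp only [Nat.ble_eq]
      split_ifs <;> omega
  · rw [show Nat.ble x1 (N.xgN D.I.kW) = false from by
      rw [Bool.eq_false_iff]; simpa [Nat.ble_eq] using h1, cond_false]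
    by_cases h2 : N.mL D ≤ x0 ∧ x1 + 1 ≤ N.xgN D.I.kN
    · rw [show Nat.ble (N.mL D) x0 = true from Nat.ble_eq_true_of_le h2.1, cond_true,
        show Nat.ble (Nat.succ x1) (N.xgN D.I.kN) = true from Nat.ble_eq_true_of_le h2.2, cond_true]
      have hx1 : x0 ≤ x1 := by
        have h : aR x0 ≤ aR x1 := hy0.trans hy
        unfold aR at h
        have h' : (x0 : ℝ) ≤ x1 := by
          have := (div_le_div_iff_of_pos_right (by positivity : (0:ℝ) < 2 ^ 26)).1 h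
          exact this
        exact_mod_cast h'
      exact hT.n0 x1 y (h2.1.trans hx1) h2.2 ((aR_mono h2.1).trans hy0) hy
    · rw [show (cond (Nat.ble (N.mL D) x0) (Nat.ble (Nat.succ x1) (N.xgN D.I.kN)) false) = false from by
        rw [Bool.cond_eq_ite]
        simp only [Nat.ble_eq]
        split_ifs with h3
        · rw [Bool.eq_false_iff]
          intro h4
          exact h2 ⟨h3, Nat.le_of_ble_eq_true h4⟩
        · rfl, cond_false]
      have : vR 0 = 0 := by unfold vR; norm_num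
      rw [this]
      linarith

theorem le_mx1 (a b : ℕ) : a ≤ N.mx a b := by
  unfold N.mx
  rw [Bool.cond_eq_ite]
  simp only [Nat.ble_eq]
  split_ifs <;> omega

theorem le_mx2 (a b : ℕ) : b ≤ N.mx a b := by
  unfold N.mx
  rw [Bool.cond_eq_ite]
  simp only [Nat.ble_eq]
  split_ifs <;> omega

/-- upper bound -/
theorem upp (hT : TF D θ z) {x0 x1 : ℕ} {y : ℝ} (hy0 : aR x0 ≤ y) (hy : y ≤ aR x1) :
    |f0 θ y| ≤ vR (N.mxA D x0 x1) := by
  have hRL := bRL θ z _ _ _ _ hT.fa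
  unfold N.mxA
  by_cases h1 : N.zR D ≤ x0
  · rw [show Nat.ble (N.zR D) x0 = true from Nat.ble_eq_true_of_le h1, cond_true]
    exact (hT.uu x0 y hy0).1
  · rw [show Nat.ble (N.zR D) x0 = false from by
      rw [Bool.eq_false_iff]; simpa [Nat.ble_eq] using h1, cond_false]
    have hy00 : 0 ≤ y := (aR_nonneg x0).trans hy0
    rcases lt_or_ge y z with hyz | hyz
    · refine le_trans ?_ (vR_mono (le_mx1 _ _))
      have hpos := hRL.2.1 y hy00 hyz
      rw [abs_of_pos hpos]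
      have hx32 : x0 < 2 ^ 32 := by
        have h1 : N.zR D < 2 ^ 32 := xgN_lt (by have := hT.i1; omega)
        omega
      have hzm := hT.fa.zm
      have h3 : f0 θ y ≤ f0 θ (aR x0) :=
        hRL.1.antitoneOn ⟨aR_nonneg x0, by linarith⟩ ⟨hy00, by linarith⟩ hy0
      have h4 := hT.up0 x0 hx32
      have h5 := le_vR_sub (N.up0 D x0) N.one
      rw [vR_one] at h5
      have h6 : N.pp (N.up0 D x0) = N.up0 D x0 - N.one := rfl
      rw [h6]
      linarith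
    · exact (hT.fst x0 x1 y hyz hy0 hy).trans (vR_mono (le_mx2 _ _))

/-! ## the sum -/

/-- the sums of the first `n` terms -/
def Q (D : N.Tab) (a1 a2 cm c2 e0 n : ℕ) : ℕ :=
  Nat.rec N.one (fun i ih => N.frc (Nat.mul (Nat.succ i) (Nat.succ i)) (fun X =>
    N.frc (Nat.mul a2 X) (fun x => N.frc (Nat.mul c2 X) (fun y =>
    cond (cond (Nat.ble x (N.zL D)) (Nat.ble y (N.zL D)) false)
      (N.addS ih (Nat.shiftRight (Nat.mul (Nat.shiftRight (Nat.mul (N.pp (N.tayL D x)) (N.pp (N.tayL D y))) 40)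
        (Nat.div (Nat.shiftLeft (Nat.sub N.one (N.expUp (Nat.shiftLeft (Nat.mul e0 X) 13))) 26) (Nat.mul e0 X))) 40))
    (cond (cond (cond (Nat.ble (N.zR D) (Nat.mul a1 X)) (Nat.ble (N.zR D) (Nat.mul cm X)) false)
        (cond D.B.ni true (cond (Nat.ble x (N.xgN D.I.kN)) (Nat.ble y (N.xgN D.I.kN)) false)) false)
      (N.addS ih (Nat.shiftRight (Nat.mul (Nat.shiftRight (Nat.mul (N.mnA D (Nat.mul a1 X) x) (N.mnA D (Nat.mul cm X) y)) 40)
        (Nat.div (Nat.shiftLeft (Nat.sub N.one (N.expUp (Nat.shiftLeft (Nat.mul e0 X) 13))) 26) (Nat.mul e0 X))) 40))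
      (Nat.sub ih (Nat.succ (Nat.shiftRight (Nat.mul (Nat.succ (Nat.shiftRight (Nat.mul (N.mxA D (Nat.mul a1 X) x) (N.mxA D (Nat.mul cm X) y)) 40))
        (Nat.succ (Nat.div (Nat.shiftLeft (Nat.sub N.one (N.expLo (Nat.shiftLeft (Nat.mul e0 X) 13))) 26) (Nat.mul e0 X)))) 40)))))))) n

theorem ca (a b : Bool) : cond a b false = (a && b) := by cases a <;> rfl
theorem co (a b : Bool) : cond a true b = (a || b) := by cases a <;> rfl

theorem Q_zero (D : N.Tab) (a1 a2 cm c2 e0 : ℕ) : Q D a1 a2 cm c2 e0 0 = N.one := rfl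

/-- lower part, `A B W` rounded down -/
def lo (A B e0 X : ℕ) : ℕ :=
  A * B / 2 ^ 40 * (((N.one - N.expUp (e0 * X * 2 ^ 13)) * 2 ^ 26) / (e0 * X)) / 2 ^ 40

/-- upper part -/
def up (A B e0 X : ℕ) : ℕ :=
  ((A * B / 2 ^ 40 + 1) * (((N.one - N.expLo (e0 * X * 2 ^ 13)) * 2 ^ 26) / (e0 * X) + 1)) / 2 ^ 40 + 1

theorem Q_succ (D : N.Tab) (a1 a2 cm c2 e0 i : ℕ) : Q D a1 a2 cm c2 e0 (i + 1) =
    if (a2 * ((i + 1) * (i + 1)) ≤ N.zL D ∧ c2 * ((i + 1) * (i + 1)) ≤ N.zL D) then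
      N.addS (Q D a1 a2 cm c2 e0 i) (lo (N.pp (N.tayL D (a2 * ((i + 1) * (i + 1)))))
        (N.pp (N.tayL D (c2 * ((i + 1) * (i + 1))))) e0 ((i + 1) * (i + 1)))
    else if ((N.zR D ≤ a1 * ((i + 1) * (i + 1)) ∧ N.zR D ≤ cm * ((i + 1) * (i + 1))) ∧
      (D.B.ni = true ∨ (a2 * ((i + 1) * (i + 1)) ≤ N.xgN D.I.kN ∧ c2 * ((i + 1) * (i + 1)) ≤ N.xgN D.I.kN))) then
      N.addS (Q D a1 a2 cm c2 e0 i) (lo (N.mnA D (a1 * ((i + 1) * (i + 1))) (a2 * ((i + 1) * (i + 1))))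
        (N.mnA D (cm * ((i + 1) * (i + 1))) (c2 * ((i + 1) * (i + 1)))) e0 ((i + 1) * (i + 1)))
    else Q D a1 a2 cm c2 e0 i - up (N.mxA D (a1 * ((i + 1) * (i + 1))) (a2 * ((i + 1) * (i + 1))))
        (N.mxA D (cm * ((i + 1) * (i + 1))) (c2 * ((i + 1) * (i + 1)))) e0 ((i + 1) * (i + 1)) := by
  have h0 : Q D a1 a2 cm c2 e0 (i + 1) = (fun i ih => N.frc (Nat.mul (Nat.succ i) (Nat.succ i)) (fun X =>
    N.frc (Nat.mul a2 X) (fun x => N.frc (Nat.mul c2 X) (fun y =>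
    cond (cond (Nat.ble x (N.zL D)) (Nat.ble y (N.zL D)) false)
      (N.addS ih (Nat.shiftRight (Nat.mul (Nat.shiftRight (Nat.mul (N.pp (N.tayL D x)) (N.pp (N.tayL D y))) 40)
        (Nat.div (Nat.shiftLeft (Nat.sub N.one (N.expUp (Nat.shiftLeft (Nat.mul e0 X) 13))) 26) (Nat.mul e0 X))) 40))
    (cond (cond (cond (Nat.ble (N.zR D) (Nat.mul a1 X)) (Nat.ble (N.zR D) (Nat.mul cm X)) false)
        (cond D.B.ni true (cond (Nat.ble x (N.xgN D.I.kN)) (Nat.ble y (N.xgN D.I.kN)) false)) false)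
      (N.addS ih (Nat.shiftRight (Nat.mul (Nat.shiftRight (Nat.mul (N.mnA D (Nat.mul a1 X) x) (N.mnA D (Nat.mul cm X) y)) 40)
        (Nat.div (Nat.shiftLeft (Nat.sub N.one (N.expUp (Nat.shiftLeft (Nat.mul e0 X) 13))) 26) (Nat.mul e0 X))) 40))
      (Nat.sub ih (Nat.succ (Nat.shiftRight (Nat.mul (Nat.succ (Nat.shiftRight (Nat.mul (N.mxA D (Nat.mul a1 X) x) (N.mxA D (Nat.mul cm X) y)) 40))
        (Nat.succ (Nat.div (Nat.shiftLeft (Nat.sub N.one (N.expLo (Nat.shiftLeft (Nat.mul e0 X) 13))) 26) (Nat.mul e0 X)))) 40))))))))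
        i (Q D a1 a2 cm c2 e0 i) := rfl
  rw [h0]
  simp only [frc_eq, ca, co, nmul, nsl, nsr, nsub, ndiv, Nat.succ_eq_add_one, lo, up]
  simp only [Bool.cond_eq_ite, Bool.and_eq_true, Bool.or_eq_true, Nat.ble_eq]

theorem vR_addS {x y : ℕ} (h : N.addS x y ≠ 0) : x ≠ 0 ∧ N.addS x y = x + y := by
  unfold N.addS at h ⊢
  by_cases hx : x = 0
  · subst hx
    exact absurd rfl h
  · have : Nat.beq x 0 = false := by
      rw [Bool.eq_false_iff]
      intro h'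
      exact hx (Nat.eq_of_beq_eq_true h')
    rw [this, cond_false]
    exact ⟨hx, rfl⟩

theorem lo_le (hE : GEXP) {A B e0 X : ℕ} (h : 0 < e0) (hX : 0 < X) {p q : ℝ} (hp : vR A ≤ p) (hq : vR B ≤ q) :
    vR (lo A B e0 X) ≤ p * q * wt e0 X := by
  unfold lo
  refine (mulL3 _ _ _).trans ?_
  have h1 := wtL hE h hX
  have hp0 := (vR_nonneg A).trans hp
  have hq0 := (vR_nonneg B).trans hq
  exact mul_le_mul (mul_le_mul hp hq (vR_nonneg _) hp0) h1 (vR_nonneg _) (mul_nonneg hp0 hq0)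

theorem le_up (hE : GEXP) {A B e0 X : ℕ} (h : 0 < e0) (hX : 0 < X) {p q : ℝ} (hp : |p| ≤ vR A) (hq : |q| ≤ vR B) :
    -(vR (up A B e0 X)) ≤ p * q * wt e0 X := by
  unfold up
  have h1 := wtU hE h hX
  have h0 := wt_nonneg (e0 := e0) (X := X) h hX
  have h2 : |p * q * wt e0 X| ≤ vR A * vR B *
      vR (((N.one - N.expLo (e0 * X * 2 ^ 13)) * 2 ^ 26) / (e0 * X) + 1) := by
    rw [abs_mul, abs_mul, abs_of_nonneg h0]
    exact mul_le_mul (mul_le_mul hp hq (abs_nonneg _) (vR_nonneg _)) h1 h0 (mul_nonneg (vR_nonneg _) (vR_nonneg _))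
  have h3 := h2.trans (mulU3 _ _ _)
  exact (neg_le_neg h3).trans (neg_abs_le _)

theorem gPSM : GPSM := by
  intro hE D θ z hT a c a1 a2 cm c2 e0 he0 ha1 ha2 hcm hc2 hca ha26 hc26
  have h0 : ∀ n, Q D a1 a2 cm c2 e0 n = 0 ∨ vR (Q D a1 a2 cm c2 e0 n) ≤ 1 + ∑ l ∈ Finset.Icc 1 n,
      f0 θ (a * (l : ℝ) ^ 2) * f0 θ (c * (l : ℝ) ^ 2) * ((1 - Real.exp (-(aR e0 * (l : ℝ) ^ 2) / 2)) / (aR e0 * (l : ℝ) ^ 2)) := by
    intro n
    induction n with
    | zero =>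
      right
      rw [Q_zero, vR_one]
      simp
    | succ i ih =>
      have hX : 0 < (i + 1) * (i + 1) := by positivity
      have hXc : (((i + 1) * (i + 1) : ℕ) : ℝ) = ((i + 1 : ℕ) : ℝ) ^ 2 := by push_cast; ring
      have hXp : (0 : ℝ) ≤ ((i + 1 : ℕ) : ℝ) ^ 2 := by positivity
      set X : ℕ := (i + 1) * (i + 1) with hXdef
      have ea0 : 0 ≤ a := (aR_nonneg a1).trans ha1
      have ec0 : 0 ≤ c := (aR_nonneg cm).trans hcm
      have b1 : aR (a1 * X) ≤ a * ((i + 1 : ℕ) : ℝ) ^ 2 := by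
        rw [aR_mul, hXc]; exact mul_le_mul_of_nonneg_right ha1 hXp
      have b2 : a * ((i + 1 : ℕ) : ℝ) ^ 2 ≤ aR (a2 * X) := by
        rw [aR_mul, hXc]; exact mul_le_mul_of_nonneg_right ha2 hXp
      have b3 : aR (cm * X) ≤ c * ((i + 1 : ℕ) : ℝ) ^ 2 := by
        rw [aR_mul, hXc]; exact mul_le_mul_of_nonneg_right hcm hXp
      have b4 : c * ((i + 1 : ℕ) : ℝ) ^ 2 ≤ aR (c2 * X) := by
        rw [aR_mul, hXc]; exact mul_le_mul_of_nonneg_right hc2 hXp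
      have n1 : 0 ≤ a * ((i + 1 : ℕ) : ℝ) ^ 2 := mul_nonneg ea0 hXp
      have n2 : 0 ≤ c * ((i + 1 : ℕ) : ℝ) ^ 2 := mul_nonneg ec0 hXp
      have hw : wt e0 X = (1 - Real.exp (-(aR e0 * ((i + 1 : ℕ) : ℝ) ^ 2) / 2)) / (aR e0 * ((i + 1 : ℕ) : ℝ) ^ 2) := by
        unfold wt; rw [hXc]
      rw [Finset.sum_Icc_succ_top (by omega : 1 ≤ i + 1), ← hw]
      rw [Q_succ, ← hXdef]
      split_ifs with c1 c2'
      · by_cases hz : N.addS (Q D a1 a2 cm c2 e0 i) (lo (N.pp (N.tayL D (a2 * X))) (N.pp (N.tayL D (c2 * X))) e0 X) = 0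
        · exact Or.inl hz
        · right
          obtain ⟨hz1, hz2⟩ := vR_addS hz
          rw [hz2, vR_add]
          have l1 := low1 hT c1.1 n1 b2
          have l2 := low1 hT c1.2 n2 b4
          have l3 := lo_le hE he0 hX l1.2 l2.2
          have l4 := ih.resolve_left hz1
          linarith
      · by_cases hz : N.addS (Q D a1 a2 cm c2 e0 i) (lo (N.mnA D (a1 * X) (a2 * X)) (N.mnA D (cm * X) (c2 * X)) e0 X) = 0
        · exact Or.inl hz
        · right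
          obtain ⟨hz1, hz2⟩ := vR_addS hz
          rw [hz2, vR_add]
          have l1 := low2 hT c2'.1.1 (c2'.2.imp id And.left) b1 b2
          have l2 := low2 hT c2'.1.2 (c2'.2.imp id And.right) b3 b4
          have l3 := lo_le hE he0 hX l1.2 l2.2
          have l4 := ih.resolve_left hz1
          rw [neg_mul_neg] at l3
          linarith
      · by_cases hz : Q D a1 a2 cm c2 e0 i - up (N.mxA D (a1 * X) (a2 * X)) (N.mxA D (cm * X) (c2 * X)) e0 X = 0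
        · exact Or.inl hz
        · right
          have l4 := ih.resolve_left (by intro h'; rw [h'] at hz; exact hz (Nat.zero_sub _))
          rw [vR_sub (by omega)]
          have l3 := le_up hE he0 hX (upp hT b1 b2) (upp hT b3 b4)
          linarith
  rcases h0 15 with h | h
  · exact Or.inl h
  · refine Or.inr ⟨_, fun l _ _ => le_rfl, h⟩

end Pool.Agent.Helper59.PT
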