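import Pool.Agent.Helper53.PT.GoalsD
import Pool.Agent.Helper53.PT.B
import Pool.Agent.Helper59.PT.PSM

/-!
# MP_705522_gt, packet CLS: lists of intervals and classes, conclusion `GT`
-/

namespace Pool.Agent.Helper59.PT

open Set
open Pool.Agent.Helper53.PT

attribute [local irreducible] N.tPL N.tPU N.tSL N.tSU N.tTL N.tTU N.tST N.tU0 N.tU1 N.tU2 N.tP1 N.tI1 N.tI2 N.tRH
  N.tRI N.tLU N.tLL N.tF N.tN0 N.tSG N.tW N.fld N.fld6

theorem acAll_nil (D : N.Tab) (n NM A : ℕ) (h : N.acAll D n NM [] A = true) : A = 1024 := by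
  simp only [N.acAll] at h
  exact Nat.eq_of_beq_eq_true h

theorem acAll_cons {D : N.Tab} {n NM A : ℕ} {x : N.AC} {xs : List N.AC} (h : N.acAll D n NM (x :: xs) A = true) :
    A + 1 ≤ x.a2 ∧ N.aOK D n NM (N.mx (A * 2 ^ 16) (if n = 0 then 0 else N.oneA / n)) (x.a2 * 2 ^ 16)
      (x.ep * 2 ^ 16) (x.v0 * 2 ^ 12) x.vs x.bs = true ∧ N.acAll D n NM xs x.a2 = true := by
  simp only [N.acAll, ca, Bool.and_eq_true] at h
  refine ⟨Nat.le_of_ble_eq_true h.1.1, ?_, h.2⟩
  have h2 := h.1.2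
  rw [nsl, nsl, nsl, nsl, ndiv] at h2
  have h3 : (cond (Nat.beq n 0) 0 (N.oneA / n)) = if n = 0 then 0 else N.oneA / n := by
    rcases n with _ | n <;> rfl
  rw [h3] at h2
  exact h2

theorem acAll_le {D : N.Tab} {n NM : ℕ} : ∀ (xs : List N.AC) (A : ℕ), N.acAll D n NM xs A = true → A ≤ 1024
  | [], A, h => (acAll_nil D n NM A h).le
  | x :: xs, A, h => by
    have h1 := acAll_cons h
    have h2 := acAll_le xs x.a2 h1.2.2
    omega

theorem aR_le_iff {x y : ℕ} : aR x ≤ aR y ↔ x ≤ y := by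
  unfold aR
  rw [div_le_div_iff_of_pos_right (by positivity)]
  exact Nat.cast_le

theorem aR_16 (A : ℕ) : aR (A * 2 ^ 16) = A / 1024 := by
  unfold aR; push_cast; ring

/-- a vertex -/
theorem good_one {θ : ℝ} (h0 : 1 / 4 ≤ θ) (h1 : θ < 1 / 2) {n : ℕ} (hn : 2 ≤ n) {t : Fin n → ℝ}
    (ht : IsMinT θ t) {i : Fin n} (hi : 1 ≤ t i) : Good t := by
  have hS := ht.1
  obtain ⟨k, hk⟩ : ∃ k : Fin n, k ≠ i := by
    haveI : Nontrivial (Fin n) := Fin.nontrivial_iff_two_le.2 hn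
    exact exists_ne i
  have h2 := Finset.add_sum_erase Finset.univ t (Finset.mem_univ i)
  rw [hS.2] at h2
  have h3 : 0 ≤ ∑ l ∈ Finset.univ.erase i, t l := Finset.sum_nonneg (fun l _ => hS.1 l)
  have h4 : t k ≤ ∑ l ∈ Finset.univ.erase i, t l :=
    Finset.single_le_sum (f := t) (fun l _ => hS.1 l) (Finset.mem_erase.2 ⟨hk, Finset.mem_univ k⟩)
  have h5 := hS.1 k
  exact (bACOV θ h0 h1 n t hS).2.1 ht i k hk.symm (by linarith)

theorem max_ge {n : ℕ} (hn : 0 < n) {t : Fin n → ℝ} (hS : Sx t) {i : Fin n} (hi : ∀ l, t l ≤ t i) :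
    1 / (n : ℝ) ≤ t i := by
  have h1 : ∑ l, t l ≤ ∑ _l : Fin n, t i := Finset.sum_le_sum (fun l _ => hi l)
  rw [hS.2, Finset.sum_const, Finset.card_univ, Fintype.card_fin, nsmul_eq_mul] at h1
  rw [div_le_iff₀ (by exact_mod_cast hn)]
  linarith

theorem ac_good (hA : GAOK) (h1 : GEOK) (h2 : GE3) (h3 : GKOK) (h4 : GPOKS) {D : N.Tab} {θ z : ℝ}
    (hT : TF D θ z) {n c NM : ℕ} (hc : c = n ∨ (c = 0 ∧ 2 ≤ NM ∧ NM ≤ n)) (hn : 3 ≤ n) :
    ∀ (xs : List N.AC) (A : ℕ), 0 < A → N.acAll D c NM xs A = true →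
      ∀ (t : Fin n → ℝ) (i : Fin n), IsMinT θ t → (∀ l, t l ≤ t i) → (A : ℝ) / 1024 ≤ t i → Good t
  | [], A, _, h, t, i, ht, _, hi => by
    rw [acAll_nil D c NM A h] at hi
    exact good_one hT.th0 hT.th1 (by omega) ht (by push_cast at hi; linarith)
  | x :: xs, A, hA0, h, t, i, ht, hl, hi => by
    have g := acAll_cons h
    have g2 := acAll_le xs x.a2 g.2.2
    rcases le_total ((x.a2 : ℝ) / 1024) (t i) with hx | hx
    · exact ac_good hA h1 h2 h3 h4 hT hc hn xs x.a2 (by omega) g.2.2 t i ht hl hx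
    · have e1 : aR (N.mx (A * 2 ^ 16) (if c = 0 then 0 else N.oneA / c)) ≤ t i := by
        have e2 : aR (A * 2 ^ 16) ≤ t i := by rw [aR_16]; exact hi
        have e3 : aR (if c = 0 then 0 else N.oneA / c) ≤ t i := by
          by_cases hc0 : c = 0
          · rw [if_pos hc0]
            have : aR 0 = 0 := by unfold aR; norm_num
            rw [this]
            exact ht.1.1 i
          · rw [if_neg hc0]
            have hcn : c = n := hc.resolve_right (fun h => hc0 h.1)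
            subst hcn
            refine le_trans ?_ (max_ge (by omega) ht.1 hl)
            unfold aR
            have e4 : ((N.oneA / c : ℕ) : ℝ) ≤ (N.oneA : ℝ) / c := Nat.cast_div_le
            rw [div_le_iff₀ (by positivity)]
            refine e4.trans ?_
            have : (N.oneA : ℝ) = 2 ^ 26 := by unfold N.oneA; norm_num
            rw [this]
            rw [one_div, div_eq_inv_mul]
        unfold N.mx
        rcases Nat.ble (A * 2 ^ 16) (if c = 0 then 0 else N.oneA / c) with _ | _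
        · exact e2
        · exact e3
      have e2 : t i ≤ aR (x.a2 * 2 ^ 16) := by rw [aR_16]; exact hx
      refine hA h1 h2 h3 h4 D θ z hT n c NM _ _ _ _ x.vs x.bs hc hn ?_ (aR_le_iff.1 (e1.trans e2)) ?_ g.2.1
        t i ht hl e1 e2
      · exact le_trans (by omega) (le_mx1 _ _)
      · have := g2
        omega

theorem cl_good (hA : GAOK) (h1 : GEOK) (h2 : GE3) (h3 : GKOK) (h4 : GPOKS) (hS : GSMK) (hE : GEXP) {D : N.Tab}
    {θ z : ℝ} (hT : TF D θ z) (hs : N.smOK D = true) (c : N.Cl) (hc : N.clOK D c = true) (n : ℕ) (hn : 3 ≤ n)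
    (hcn : c.n = n ∨ (c.n = 0 ∧ 2 ≤ c.NM ∧ c.NM ≤ n)) (t : Fin n → ℝ) (ht : IsMinT θ t) : Good t := by
  simp only [N.clOK, ca, Bool.and_eq_true] at hc
  obtain ⟨⟨hc1, hc2⟩, hc3⟩ := hc
  have hA0 : 1 ≤ c.A0 := Nat.le_of_ble_eq_true hc1
  haveI : Nonempty (Fin n) := ⟨⟨0, by omega⟩⟩
  obtain ⟨i, hi⟩ := Finite.exists_max t
  obtain ⟨j, hj⟩ := Finite.exists_min t
  rcases eq_or_lt_of_le (hj i) with hij | hij
  · refine (bACOV θ hT.th0 hT.th1 n t ht.1).1 (fun l l' => ?_)
    have a1 := hi l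
    have a2 := hi l'
    have a3 := hj l
    have a4 := hj l'
    linarith
  · have key : (c.A0 : ℝ) / 1024 ≤ t i := by
      by_cases hc0 : c.n = 0
      · rw [hc0] at hc2
        have hc4 : c.A0 ≤ 8 := Nat.le_of_ble_eq_true hc2
        by_contra hlt
        rw [not_le] at hlt
        have h5 : (c.A0 : ℝ) ≤ 8 := by exact_mod_cast hc4
        have h6 := hS hE D θ z hT hs n t i j hn ht.1 hij (fun l => ⟨hi l, hj l⟩) (by linarith)
        have h7 := ((aDER hT.th0 hT.th1 n).2 t ht.1 ht.2 i j hij).2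
        linarith
      · have hc5 : c.n = n := hcn.resolve_right (fun h => hc0 h.1)
        have hc6 : Nat.beq c.n 0 = false := by
          rw [Bool.eq_false_iff]
          intro h'
          exact hc0 (Nat.eq_of_beq_eq_true h')
        rw [hc6, cond_false, nmul, hc5] at hc2
        have hc4 : n * c.A0 ≤ 1024 := Nat.le_of_ble_eq_true hc2
        refine le_trans ?_ (max_ge (by omega) ht.1 hi)
        have hn0 : (0 : ℝ) < n := by exact_mod_cast (by omega : 0 < n)
        rw [div_le_div_iff₀ (by norm_num) hn0]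
        have : (n : ℝ) * c.A0 ≤ 1024 := by exact_mod_cast hc4
        linarith
    exact ac_good hA h1 h2 h3 h4 hT hcn hn c.cells c.A0 hA0 hc3 t i ht hi key

theorem cl_find {D : N.Tab} : ∀ (cs : List N.Cl) (k : ℕ), N.clAll D cs k = true → ∀ n, k ≤ n →
    ∃ c : N.Cl, N.clOK D c = true ∧ (c.n = n ∨ (c.n = 0 ∧ 2 ≤ c.NM ∧ c.NM ≤ n))
  | [], k, h, _, _ => by simp [N.clAll] at h
  | c :: cs, k, h, n, hn => by
    simp only [N.clAll, ca] at h
    by_cases hc0 : c.n = 0
    · have hb : Nat.beq c.n 0 = true := by rw [hc0]; rfl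
      rw [hb, cond_true, Bool.and_eq_true, Bool.and_eq_true] at h
      have hk : c.NM = k := Nat.eq_of_beq_eq_true h.1
      have h4 : 4 ≤ k := Nat.le_of_ble_eq_true h.2.1
      exact ⟨c, h.2.2, Or.inr ⟨hc0, by omega, by omega⟩⟩
    · have hc6 : Nat.beq c.n 0 = false := by
        rw [Bool.eq_false_iff]
        intro h'
        exact hc0 (Nat.eq_of_beq_eq_true h')
      rw [hc6, cond_false, Bool.and_eq_true, Bool.and_eq_true] at h
      have hk : c.n = k := Nat.eq_of_beq_eq_true h.1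
      rcases eq_or_lt_of_le hn with he | hlt
      · exact ⟨c, h.2.1, Or.inl (hk.trans he)⟩
      · exact cl_find cs (k + 1) h.2.2 n hlt

/-- The result, with the wave-3 goals as hypotheses. -/
theorem gCLS (h1 : GEOK) (h2 : GE3) (h3 : GKOK) (h4 : GPOKS) (hE : GEXP) : GCLS := by
  intro hA hS D θ z hT hs
  refine ⟨fun c hc n hn hcn t ht => cl_good hA h1 h2 h3 h4 hS hE hT hs c hc n hn hcn t ht, ?_⟩
  intro cs hcs n hn t ht
  rcases eq_or_lt_of_le hn with he | hlt
  · subst he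
    refine (bACOV θ hT.th0 hT.th1 2 t ht.1).2.1 ht 0 1 (by decide) ?_
    have := ht.1.2
    rw [Fin.sum_univ_two] at this
    exact this
  · obtain ⟨c, hc, hcn⟩ := cl_find cs 3 hcs n hlt
    exact cl_good hA h1 h2 h3 h4 hS hE hT hs c hc n hlt hcn t ht

end Pool.Agent.Helper59.PT
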